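import Pool.Agent.P7T.C5
import Pool.Agent.P7E.T9
import Pool.Agent.P7B.E1
import Pool.Agent.P7V.V12
import Pool.Agent.P7C.A2

set_option autoImplicit false

open NumberField Ideal IsDedekindDomain
open scoped Classical

/-! # [P7T-F2] the 2-part of the conjecture for every good `(e, i, j, T)` -/

namespace P7T

open PP PPA TRS

section
variable {K : Type} [Field K] [NumberField K]

/-- the recursions -/
theorem rec_arc (F : Fld K) (S : Finset (OP K)) : P7C.Rec F.arc dl F.om F.omp S :=
  P7C.rec_all F.arc dl F.om F.omp (fun _ _ h => F.arc_add h) S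

/-- the condition for `F.neg` -/
theorem good_neg (F : Fld K) {e i j : ZMod 2} {S : Finset (OP K)} (h : P7B.Good F e i j S) :
    P7B.Good F.neg (e + DS S + 1) j i S := by
  have h0 : e + DS S + 1 = e + 1 + ∑ v ∈ S, dl v := by
    unfold DS
    ring
  rw [h0]
  refine ⟨?_, ?_⟩
  · rcases h.1 with h5 | h5 | h5
    · exact Or.inl h5
    · exact Or.inr (Or.inr h5)
    · exact Or.inr (Or.inl h5)
  have h1 : P7B.SelMin (fun u v => F.arc v u) dl F.omp F.om S (e + 1 + ∑ v ∈ S, dl v) j i :=
    P7B.selMin_dual (fun u _ v _ huv => F.arc_add huv) h.1 h.2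
  intro c x y z hrow hP hQ
  have e1 : F.neg.omp = F.om := by
    funext u
    unfold PP.Fld.omp PP.Fld.om
    rw [F.neg_neg']
  have e2 : F.neg.om = F.omp := rfl
  rw [e2] at hP
  rw [e1] at hQ
  refine h1 c x y z (fun v hv => ?_) hP hQ
  rw [← P7B.e1_row]
  exact hrow v hv

/-- [P7B] MAIN THEOREM: for every good `(e, i, j, T)` and every change of variables the curve `y² = x (x - δ r) (x - δ r w⁴)` over
`K = ℚ(√-7)` has rank zero, no `2`-power torsion in its Tate-Shafarevich group and satisfies the 2-part of the conjecture -/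
theorem twoPart (F : Fld K) {e i j : ZMod 2} {T : Finset (OP K)} (h : P7B.Good F e i j T)
    (C : WeierstrassCurve.VariableChange K) :
    SBSD2.TwoPartRankZero (C • TTS.Ws (((F.Del e i j T : 𝓞 K) : K) * F.r)) := by
  obtain ⟨hfin, htor, hsha⟩ := P7B.desc_main F h C
  have h1 : PPS.dd (PPS.dat F) (F.Del e i j T) = ((F.Del e i j T : 𝓞 K) : K) * F.r := rfl
  rw [← h1]
  refine final_of F e i j T (P7E.ofk F _) (P7E.ofk F.neg _) rfl (fun N _ r => P7E.ofk_G F _ N r) ?_ ?_ C hfin htor hsha
  · intro V h2 hw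
    exact P7V.val_VT (P7E.ofk F _) h2 hw (rec_arc F) h
  · intro V h2 hw
    exact P7V.val_VT (P7E.ofk F.neg _) h2 hw (rec_arc F.neg) (good_neg F h)

end

end P7T
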